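import Mathlib
import Pool.Agent.H90.Star.Riem

/-!
# EC-T2: a function with negative logarithmic Laplacian has the smaller neighbour property on fine
grids; side sums
-/

set_option autoImplicit false

namespace Pool.Agent.H90.EC

open Set MeasureTheory Filter Topology

/-- second order test in one variable -/
theorem second_test (φ φ' φ'' : ℝ → ℝ) (a h : ℝ) (hh : 0 < h)
    (h1 : ∀ x ∈ Icc (a - h) (a + h), HasDerivAt φ (φ' x) x)
    (h2 : ∀ x ∈ Icc (a - h) (a + h), HasDerivAt φ' (φ'' x) x)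
    (hl : φ a ≤ φ (a - h)) (hr : φ a ≤ φ (a + h)) : ∃ x ∈ Icc (a - h) (a + h), 0 ≤ φ'' x := by
  obtain ⟨s, hs, es⟩ := exists_hasDerivAt_eq_slope φ φ' (show a < a + h by linarith)
    (fun x hx => (h1 x ⟨by linarith [hx.1], hx.2⟩).continuousAt.continuousWithinAt)
    (fun x hx => h1 x ⟨by linarith [hx.1], hx.2.le⟩)
  obtain ⟨t, ht, et⟩ := exists_hasDerivAt_eq_slope φ φ' (show a - h < a by linarith)
    (fun x hx => (h1 x ⟨hx.1, by linarith [hx.2]⟩).continuousAt.continuousWithinAt)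
    (fun x hx => h1 x ⟨hx.1.le, by linarith [hx.2]⟩)
  have hs0 : 0 ≤ φ' s := by
    rw [es]
    exact div_nonneg (by linarith) (by linarith)
  have ht0 : φ' t ≤ 0 := by
    rw [et]
    exact div_nonpos_of_nonpos_of_nonneg (by linarith) (by linarith)
  have hts : t < s := ht.2.trans hs.1
  obtain ⟨r, hr', er⟩ := exists_hasDerivAt_eq_slope φ' φ'' hts
    (fun x hx => (h2 x ⟨by linarith [hx.1, ht.1], by linarith [hx.2, hs.2]⟩).continuousAt.continuousWithinAt)
    (fun x hx => h2 x ⟨by linarith [hx.1, ht.1], by linarith [hx.2, hs.2]⟩)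
  refine ⟨r, ⟨by linarith [hr'.1, ht.1], by linarith [hr'.2, hs.2]⟩, ?_⟩
  rw [er]
  exact div_nonneg (by linarith) (by linarith)

/-- uniform smaller neighbour property -/
theorem smaller_nb {x0 x1 y0 y1 : ℝ} (G Gx Gxx Gy Gyy : ℝ → ℝ → ℝ)
    (h1 : ∀ x ∈ Icc x0 x1, ∀ y ∈ Icc y0 y1, HasDerivAt (fun s => G s y) (Gx x y) x)
    (h2 : ∀ x ∈ Icc x0 x1, ∀ y ∈ Icc y0 y1, HasDerivAt (fun s => Gx s y) (Gxx x y) x)
    (h3 : ∀ x ∈ Icc x0 x1, ∀ y ∈ Icc y0 y1, HasDerivAt (fun s => G x s) (Gy x y) y)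
    (h4 : ∀ x ∈ Icc x0 x1, ∀ y ∈ Icc y0 y1, HasDerivAt (fun s => Gy x s) (Gyy x y) y)
    (c1 : ContinuousOn (fun p : ℝ × ℝ => Gxx p.1 p.2) (Icc x0 x1 ×ˢ Icc y0 y1))
    (c2 : ContinuousOn (fun p : ℝ × ℝ => Gyy p.1 p.2) (Icc x0 x1 ×ˢ Icc y0 y1))
    (hneg : ∀ x ∈ Icc x0 x1, ∀ y ∈ Icc y0 y1, Gxx x y + Gyy x y < 0) :
    ∃ δ > 0, ∀ h k : ℝ, 0 < h → h < δ → 0 < k → k < δ → ∀ x y, x0 ≤ x - h → x + h ≤ x1 →
      y0 ≤ y - k → y + k ≤ y1 →
      G (x - h) y < G x y ∨ G (x + h) y < G x y ∨ G x (y - k) < G x y ∨ G x (y + k) < G x y := by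
  have hcpt : IsCompact (Icc x0 x1 ×ˢ Icc y0 y1) := isCompact_Icc.prod isCompact_Icc
  by_cases hne : (Icc x0 x1 ×ˢ Icc y0 y1).Nonempty
  swap
  · refine ⟨1, one_pos, ?_⟩
    intro h k hh _ hk _ x y a1 a2 a3 a4
    exact absurd ⟨(x, y), ⟨by constructor <;> simp only <;> linarith,
      by constructor <;> simp only <;> linarith⟩⟩ hne
  obtain ⟨q, hq, hqm⟩ := hcpt.exists_isMaxOn hne (c1.add c2)
  set c := -(Gxx q.1 q.2 + Gyy q.1 q.2) with hc
  have hcpos : 0 < c := by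
    have := hneg q.1 hq.1 q.2 hq.2
    rw [hc]
    linarith
  have hle : ∀ x ∈ Icc x0 x1, ∀ y ∈ Icc y0 y1, Gxx x y + Gyy x y ≤ -c := by
    intro x hx y hy
    have := hqm (show (x, y) ∈ Icc x0 x1 ×ˢ Icc y0 y1 from ⟨hx, hy⟩)
    rw [hc, neg_neg]
    exact this
  have u1 := Metric.uniformContinuousOn_iff.1 (hcpt.uniformContinuousOn_of_continuous c1) (c / 2)
    (by linarith)
  have u2 := Metric.uniformContinuousOn_iff.1 (hcpt.uniformContinuousOn_of_continuous c2) (c / 2)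
    (by linarith)
  obtain ⟨d1, hd1, e1⟩ := u1
  obtain ⟨d2, hd2, e2⟩ := u2
  refine ⟨min d1 d2, lt_min hd1 hd2, ?_⟩
  intro h k hh hhd hk hkd x y a1 a2 a3 a4
  by_contra hcon
  push Not at hcon
  obtain ⟨b1, b2, b3, b4⟩ := hcon
  have hx : x ∈ Icc x0 x1 := ⟨by linarith, by linarith⟩
  have hy : y ∈ Icc y0 y1 := ⟨by linarith, by linarith⟩
  obtain ⟨s, hs, es⟩ := second_test (fun s => G s y) (fun s => Gx s y) (fun s => Gxx s y) x h hh
    (fun t ht => h1 t ⟨by linarith [ht.1], by linarith [ht.2]⟩ y hy)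
    (fun t ht => h2 t ⟨by linarith [ht.1], by linarith [ht.2]⟩ y hy) b1 b2
  obtain ⟨t, ht, et⟩ := second_test (fun s => G x s) (fun s => Gy x s) (fun s => Gyy x s) y k hk
    (fun t ht => h3 x hx t ⟨by linarith [ht.1], by linarith [ht.2]⟩)
    (fun t ht => h4 x hx t ⟨by linarith [ht.1], by linarith [ht.2]⟩) b3 b4
  have k1 := e1 (x, y) ⟨hx, hy⟩ (s, y) ⟨⟨by linarith [hs.1], by linarith [hs.2]⟩, hy⟩ (by
    rw [Prod.dist_eq, dist_self, max_eq_left dist_nonneg, Real.dist_eq, abs_lt]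
    have := min_le_left d1 d2
    constructor <;> linarith [hs.1, hs.2])
  have k2 := e2 (x, y) ⟨hx, hy⟩ (x, t) ⟨hx, ⟨by linarith [ht.1], by linarith [ht.2]⟩⟩ (by
    rw [Prod.dist_eq, dist_self, max_eq_right dist_nonneg, Real.dist_eq, abs_lt]
    have := min_le_right d1 d2
    constructor <;> linarith [ht.1, ht.2])
  simp only [Real.dist_eq, abs_lt] at k1 k2
  have := hle x hx y hy
  linarith [k1.1, k2.1]

/-- side sums -/
theorem side_sum {a b : ℝ} (hab : a < b) (φ φ' : ℝ → ℝ)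
    (h1 : ∀ x ∈ Icc a b, HasDerivAt φ (φ' x) x) (h2 : ContinuousOn φ' (Icc a b)) (N : ℕ)
    (hN : 0 < N) :
    ∑ j ∈ Finset.range N, max 0 (φ (a + j * ((b - a) / N)) - φ (a + (j + 1 : ℕ) * ((b - a) / N))) ≤
      ∫ y in a..b, max 0 (-φ' y) := by
  have hN' : (0 : ℝ) < N := by exact_mod_cast hN
  have hh : 0 < (b - a) / N := div_pos (by linarith) hN'
  set c : ℕ → ℝ := fun j => a + j * ((b - a) / N) with hc
  have hc0 : c 0 = a := by simp [hc]
  have hcN : c N = b := by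
    simp only [hc]
    field_simp
    ring
  have hmono : ∀ j, c j ≤ c (j + 1) := by
    intro j
    simp only [hc]
    push_cast
    nlinarith
  have hsub : ∀ j < N, Icc (c j) (c (j + 1)) ⊆ Icc a b := by
    intro j hj
    refine Icc_subset_Icc ?_ ?_
    · simp only [hc]
      have : 0 ≤ (j : ℝ) * ((b - a) / N) := by positivity
      linarith
    · rw [← hcN]
      simp only [hc]
      have : ((j + 1 : ℕ) : ℝ) ≤ N := by exact_mod_cast hj
      nlinarith
  have hcont : ContinuousOn (fun y => max 0 (-φ' y)) (Icc a b) :=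
    continuousOn_const.sup h2.neg
  have hi : ∀ j < N, IntervalIntegrable (fun y => max 0 (-φ' y)) volume (c j) (c (j + 1)) := by
    intro j hj
    refine ContinuousOn.intervalIntegrable ?_
    rw [uIcc_of_le (hmono j)]
    exact hcont.mono (hsub j hj)
  have hi' : ∀ j < N, IntervalIntegrable φ' volume (c j) (c (j + 1)) := by
    intro j hj
    refine ContinuousOn.intervalIntegrable ?_
    rw [uIcc_of_le (hmono j)]
    exact h2.mono (hsub j hj)
  have hs := intervalIntegral.sum_integral_adjacent_intervals (μ := volume)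
    (f := fun y => max 0 (-φ' y)) (a := c) (n := N) hi
  rw [hc0, hcN] at hs
  rw [← hs]
  refine Finset.sum_le_sum fun j hj => ?_
  rw [Finset.mem_range] at hj
  refine max_le ?_ ?_
  · exact intervalIntegral.integral_nonneg (hmono j) fun _ _ => le_max_left _ _
  · have e1 : ∫ y in (c j)..(c (j + 1)), φ' y = φ (c (j + 1)) - φ (c j) :=
      intervalIntegral.integral_eq_sub_of_hasDerivAt (fun x hx => by
        rw [uIcc_of_le (hmono j)] at hx
        exact h1 x (hsub j hj hx)) (hi' j hj)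
    have e2 : φ (c j) - φ (c (j + 1)) = ∫ y in (c j)..(c (j + 1)), -φ' y := by
      rw [intervalIntegral.integral_neg, e1]
      ring
    show φ (c j) - φ (c (j + 1)) ≤ _
    rw [e2]
    exact intervalIntegral.integral_mono_on (hmono j) (hi' j hj).neg (hi j hj)
      fun _ _ => le_max_right _ _

end Pool.Agent.H90.EC
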