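import Pool.Agent.H25.EC.T3
import Pool.Agent.H25.EC.T1
import Pool.Agent.H90.EC.T2

/-!
# EC-T4: assembly of the continuous inequality STAR+
-/

set_option autoImplicit false

namespace Pool.Agent.H90.EC

open Set MeasureTheory Filter Topology
open Pool.Agent.H90.Star (cl)
open Pool.Agent.H25.EC (gp Jcell J)

/-- Lipschitz bound from the partial derivatives -/
theorem lip_rect {x0 x1 y0 y1 : ℝ} (f fx fy : ℝ → ℝ → ℝ)
    (hfx : ∀ x ∈ Icc x0 x1, ∀ y ∈ Icc y0 y1, HasDerivAt (fun t => f t y) (fx x y) x)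
    (hfy : ∀ x ∈ Icc x0 x1, ∀ y ∈ Icc y0 y1, HasDerivAt (fun t => f x t) (fy x y) y)
    (cfx : ContinuousOn (fun p : ℝ × ℝ => fx p.1 p.2) (Icc x0 x1 ×ˢ Icc y0 y1))
    (cfy : ContinuousOn (fun p : ℝ × ℝ => fy p.1 p.2) (Icc x0 x1 ×ˢ Icc y0 y1)) :
    ∃ C : ℝ, 0 ≤ C ∧ ∀ x ∈ Icc x0 x1, ∀ y ∈ Icc y0 y1, ∀ x' ∈ Icc x0 x1, ∀ y' ∈ Icc y0 y1,
      |f x' y' - f x y| ≤ C * (|x' - x| + |y' - y|) := by
  have hcpt : IsCompact (Icc x0 x1 ×ˢ Icc y0 y1) := isCompact_Icc.prod isCompact_Icc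
  obtain ⟨C1, hC1⟩ := hcpt.exists_bound_of_continuousOn cfx
  obtain ⟨C2, hC2⟩ := hcpt.exists_bound_of_continuousOn cfy
  refine ⟨max (max C1 C2) 0, le_max_right _ _, ?_⟩
  set C := max (max C1 C2) 0 with hC
  have b1 : ∀ x ∈ Icc x0 x1, ∀ y ∈ Icc y0 y1, ‖fx x y‖ ≤ C := fun x hx y hy =>
    (hC1 (x, y) ⟨hx, hy⟩).trans ((le_max_left _ _).trans (le_max_left _ _))
  have b2 : ∀ x ∈ Icc x0 x1, ∀ y ∈ Icc y0 y1, ‖fy x y‖ ≤ C := fun x hx y hy =>
    (hC2 (x, y) ⟨hx, hy⟩).trans ((le_max_right _ _).trans (le_max_left _ _))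
  intro x hx y hy x' hx' y' hy'
  have h1 := Convex.norm_image_sub_le_of_norm_hasDerivWithin_le (f := fun t => f t y')
    (f' := fun t => fx t y') (C := C) (s := Icc x0 x1) (x := x) (y := x')
    (fun t ht => (hfx t ht y' hy').hasDerivWithinAt) (fun t ht => b1 t ht y' hy')
    (convex_Icc x0 x1) hx hx'
  have h2 := Convex.norm_image_sub_le_of_norm_hasDerivWithin_le (f := fun t => f x t)
    (f' := fun t => fy x t) (C := C) (s := Icc y0 y1) (x := y) (y := y')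
    (fun t ht => (hfy x hx t ht).hasDerivWithinAt) (fun t ht => b2 x hx t ht)
    (convex_Icc y0 y1) hy hy'
  simp only [Real.norm_eq_abs] at h1 h2
  calc |f x' y' - f x y| = |(f x' y' - f x y') + (f x y' - f x y)| := by ring_nf
    _ ≤ |f x' y' - f x y'| + |f x y' - f x y| := abs_add_le _ _
    _ ≤ C * |x' - x| + C * |y' - y| := add_le_add h1 h2
    _ = C * (|x' - x| + |y' - y|) := by ring

theorem cl_spec' {x0 x1 : ℝ} (h : x0 < x1) {N : ℕ} (hN : 0 < N) {x : ℝ}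
    (hx : x ∈ Icc x0 x1) : cl x0 x1 N x ≤ N ∧ gp x0 x1 N (cl x0 x1 N x) ∈ Icc x0 x1 ∧
      |gp x0 x1 N (cl x0 x1 N x) - x| ≤ (x1 - x0) / N := by
  have hN' : (0 : ℝ) < N := by exact_mod_cast hN
  have h1 : 0 < x1 - x0 := by linarith
  have h0 : 0 ≤ (x - x0) * N / (x1 - x0) :=
    div_nonneg (mul_nonneg (by linarith [hx.1]) hN'.le) h1.le
  have f1 := Nat.floor_le h0
  have f2 := Nat.lt_floor_add_one ((x - x0) * N / (x1 - x0))
  have a0 : cl x0 x1 N x ≤ N := by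
    unfold cl
    have : (⌊(x - x0) * N / (x1 - x0)⌋₊ : ℝ) ≤ N := by
      refine f1.trans ?_
      rw [div_le_iff₀ h1]
      nlinarith [hx.2]
    exact_mod_cast this
  have a1 : (cl x0 x1 N x : ℝ) * ((x1 - x0) / N) ≤ x - x0 := by
    unfold cl
    rw [mul_div_assoc', div_le_iff₀ hN']
    rwa [le_div_iff₀ h1] at f1
  have a2 : x - x0 < ((cl x0 x1 N x : ℝ) + 1) * ((x1 - x0) / N) := by
    unfold cl
    rw [mul_div_assoc', lt_div_iff₀ hN']
    rwa [div_lt_iff₀ h1] at f2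
  have a3 : 0 ≤ (cl x0 x1 N x : ℝ) * ((x1 - x0) / N) := by positivity
  refine ⟨a0, ?_, ?_⟩
  · unfold gp
    exact ⟨by linarith, by linarith [hx.2]⟩
  · unfold gp
    rw [abs_le]
    constructor <;> linarith

theorem gp_mem {x0 x1 : ℝ} (h : x0 < x1) {N : ℕ} (hN : 0 < N) {i : ℕ} (hi : i ≤ N) :
    gp x0 x1 N i ∈ Icc x0 x1 := by
  have hN' : (0 : ℝ) < N := by exact_mod_cast hN
  have h1 : 0 < x1 - x0 := by linarith
  have hi' : (i : ℝ) ≤ N := by exact_mod_cast hi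
  unfold gp
  have a3 : 0 ≤ (i : ℝ) * ((x1 - x0) / N) := by positivity
  have a4 : (i : ℝ) * ((x1 - x0) / N) ≤ x1 - x0 := by
    rw [mul_div_assoc', div_le_iff₀ hN']
    nlinarith
  exact ⟨by linarith, by linarith⟩

theorem nrm_le (a b c d : ℝ) : ‖(⟨a, b⟩ : ℂ) - ⟨c, d⟩‖ ≤ |a - c| + |b - d| := by
  have := Complex.norm_le_abs_re_add_abs_im ((⟨a, b⟩ : ℂ) - ⟨c, d⟩)
  simpa using this

theorem star_core (x0 x1 y1 b : ℝ) (hx : x0 < x1) (hy : y1 < b)
    (f fx fy gx gy gxx gyy : ℝ → ℝ → ℝ) (I : ℝ)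
    (hpos : ∀ x ∈ Icc x0 x1, ∀ y ∈ Icc y1 b, 0 < f x y)
    (hfx : ∀ x ∈ Icc x0 x1, ∀ y ∈ Icc y1 b, HasDerivAt (fun t => f t y) (fx x y) x)
    (hfy : ∀ x ∈ Icc x0 x1, ∀ y ∈ Icc y1 b, HasDerivAt (fun t => f x t) (fy x y) y)
    (hgx : ∀ x ∈ Icc x0 x1, ∀ y ∈ Icc y1 b,
      HasDerivAt (fun t => Real.log (f t y)) (gx x y) x)
    (hgy : ∀ x ∈ Icc x0 x1, ∀ y ∈ Icc y1 b,
      HasDerivAt (fun t => Real.log (f x t)) (gy x y) y)
    (hgxx : ∀ x ∈ Icc x0 x1, ∀ y ∈ Icc y1 b, HasDerivAt (fun t => gx t y) (gxx x y) x)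
    (hgyy : ∀ x ∈ Icc x0 x1, ∀ y ∈ Icc y1 b, HasDerivAt (fun t => gy x t) (gyy x y) y)
    (cfx : ContinuousOn (fun p : ℝ × ℝ => fx p.1 p.2) (Icc x0 x1 ×ˢ Icc y1 b))
    (cfy : ContinuousOn (fun p : ℝ × ℝ => fy p.1 p.2) (Icc x0 x1 ×ˢ Icc y1 b))
    (cgxx : ContinuousOn (fun p : ℝ × ℝ => gxx p.1 p.2) (Icc x0 x1 ×ˢ Icc y1 b))
    (cgyy : ContinuousOn (fun p : ℝ × ℝ => gyy p.1 p.2) (Icc x0 x1 ×ˢ Icc y1 b))
    (hlap : ∀ x ∈ Icc x0 x1, ∀ y ∈ Icc y1 b, gxx x y + gyy x y < 0)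
    (hT : Tendsto (fun N : ℕ => ∑ i ∈ Finset.range N, ∑ j ∈ Finset.range N,
      Jcell f x0 x1 y1 b N i j) atTop (𝓝 I))
    {ι : Type} (s : Finset ι) (c : ι → ℂ) (ρ γ : ι → ℝ)
    (hcre : ∀ k ∈ s, (c k).re ∈ Icc x0 x1) (hcim : ∀ k ∈ s, (c k).im ∈ Icc y1 b)
    (hρ : ∀ k ∈ s, 0 < ρ k)
    (hγf : ∀ k ∈ s, γ k ≤ f (c k).re (c k).im)
    (hdisj : ∀ k ∈ s, ∀ l ∈ s, k ≠ l → ρ k + ρ l < ‖c k - c l‖)
    (hgain : ∀ k ∈ s, ∀ x ∈ Icc x0 x1, ∀ y ∈ Icc y1 b, ρ k / 2 ≤ ‖(⟨x, y⟩ : ℂ) - c k‖ →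
      ‖(⟨x, y⟩ : ℂ) - c k‖ ≤ ρ k → f x y + γ k ≤ f (c k).re (c k).im)
    (z : ℂ) (hzre : z.re ∈ Icc x0 x1) (hzim : z.im ∈ Icc y1 b)
    (hzc : ∀ k ∈ s, ρ k < ‖z - c k‖) :
    f z.re z.im + ∑ k ∈ s, γ k ≤
      I + (∫ y in y1..b, max 0 (-fy x1 y)) + (∫ x in x0..x1, max 0 (-fx x b)) + f x1 b := by
  obtain ⟨C, hC0, hC⟩ := lip_rect f fx fy hfx hfy cfx cfy
  obtain ⟨δ, hδ, hnb⟩ := smaller_nb (fun x y => Real.log (f x y)) gx gxx gy gyy hgx hgxx hgy hgyy
    cgxx cgyy hlap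
  set h : ℕ → ℝ := fun N => (x1 - x0) / N + (b - y1) / N with hh
  have hlim : Tendsto h atTop (𝓝 0) := by
    have e1 := tendsto_const_div_atTop_nhds_zero_nat (x1 - x0)
    have e2 := tendsto_const_div_atTop_nhds_zero_nat (b - y1)
    have := e1.add e2
    rw [add_zero] at this
    exact this
  have ev1 : ∀ᶠ N in atTop, h N < δ := hlim.eventually_lt_const hδ
  have ev2 : ∀ᶠ N in atTop, ∀ k ∈ s, h N < ρ k / 4 := by
    rw [Filter.eventually_all_finset]
    intro k hk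
    exact hlim.eventually_lt_const (by have := hρ k hk; linarith)
  have ev3 : ∀ᶠ N in atTop, ∀ k ∈ s, h N < ‖z - c k‖ - ρ k := by
    rw [Filter.eventually_all_finset]
    intro k hk
    exact hlim.eventually_lt_const (by have := hzc k hk; linarith)
  have hmain : ∀ᶠ N in atTop, (f z.re z.im - C * h N) + ∑ k ∈ s, (γ k - C * h N) ≤
      (∑ i ∈ Finset.range N, ∑ j ∈ Finset.range N, Jcell f x0 x1 y1 b N i j) +
      (∫ y in y1..b, max 0 (-fy x1 y)) + (∫ x in x0..x1, max 0 (-fx x b)) + f x1 b := by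
    filter_upwards [ev1, ev2, ev3, eventually_gt_atTop 0] with N n1 n2 n3 hN
    have hN' : (0 : ℝ) < N := by exact_mod_cast hN
    have px : 0 < (x1 - x0) / N := div_pos (by linarith) hN'
    have py : 0 < (b - y1) / N := div_pos (by linarith) hN'
    have hhN : h N = (x1 - x0) / N + (b - y1) / N := rfl
    set g : ℕ → ℕ → ℝ := fun i j => f (gp x0 x1 N i) (gp y1 b N j) with hg
    have gm : ∀ i j, i ≤ N → j ≤ N → gp x0 x1 N i ∈ Icc x0 x1 ∧ gp y1 b N j ∈ Icc y1 b :=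
      fun i j hi hj => ⟨gp_mem hx hN hi, gp_mem hy hN hj⟩
    have hmin : ∀ i j, 0 < i → i < N → 0 < j → j < N →
        g (i - 1) j < g i j ∨ g (i + 1) j < g i j ∨ g i (j - 1) < g i j ∨
          g i (j + 1) < g i j := by
      intro i j hi0 hiN hj0 hjN
      obtain ⟨i', rfl⟩ : ∃ i', i = i' + 1 := ⟨i - 1, by omega⟩
      obtain ⟨j', rfl⟩ : ∃ j', j = j' + 1 := ⟨j - 1, by omega⟩
      have m0 := gm i' (j' + 1) (by omega) (by omega)
      have m1 := gm (i' + 1) (j' + 1) (by omega) (by omega)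
      have m2 := gm (i' + 2) (j' + 1) (by omega) (by omega)
      have m3 := gm (i' + 1) j' (by omega) (by omega)
      have m4 := gm (i' + 1) (j' + 2) (by omega) (by omega)
      have e1 : gp x0 x1 N (i' + 1) - (x1 - x0) / N = gp x0 x1 N i' := by
        rw [Pool.Agent.H25.EC.gp_succ]
        ring
      have e2 : gp x0 x1 N (i' + 1) + (x1 - x0) / N = gp x0 x1 N (i' + 2) := by
        rw [Pool.Agent.H25.EC.gp_succ x0 x1 N (i' + 1)]
      have e3 : gp y1 b N (j' + 1) - (b - y1) / N = gp y1 b N j' := by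
        rw [Pool.Agent.H25.EC.gp_succ]
        ring
      have e4 : gp y1 b N (j' + 1) + (b - y1) / N = gp y1 b N (j' + 2) := by
        rw [Pool.Agent.H25.EC.gp_succ y1 b N (j' + 1)]
      have key := hnb ((x1 - x0) / N) ((b - y1) / N) px (by linarith) py (by linarith)
        (gp x0 x1 N (i' + 1)) (gp y1 b N (j' + 1)) (by rw [e1]; exact m0.1.1)
        (by rw [e2]; exact m2.1.2) (by rw [e3]; exact m3.2.1) (by rw [e4]; exact m4.2.2)
      rw [e1, e2, e3, e4] at key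
      have hlog : ∀ u v : ℝ, 0 < u → 0 < v → Real.log u < Real.log v → u < v :=
        fun u v hu hv huv => (Real.log_lt_log_iff hu hv).1 huv
      rcases key with k | k | k | k
      · left
        exact hlog _ _ (hpos _ m0.1 _ m0.2) (hpos _ m1.1 _ m1.2) k
      · right; left
        exact hlog _ _ (hpos _ m2.1 _ m2.2) (hpos _ m1.1 _ m1.2) k
      · right; right; left
        exact hlog _ _ (hpos _ m3.1 _ m3.2) (hpos _ m1.1 _ m1.2) k
      · right; right; right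
        exact hlog _ _ (hpos _ m4.1 _ m4.2) (hpos _ m1.1 _ m1.2) k
    set vt : ℂ → ℕ × ℕ := fun u => (cl x0 x1 N u.re, cl y1 b N u.im) with hvt
    have vts : ∀ u : ℂ, u.re ∈ Icc x0 x1 → u.im ∈ Icc y1 b →
        (vt u).1 ≤ N ∧ (vt u).2 ≤ N ∧ f u.re u.im - C * h N ≤ g (vt u).1 (vt u).2 ∧
        ‖(⟨gp x0 x1 N (vt u).1, gp y1 b N (vt u).2⟩ : ℂ) - u‖ ≤ h N := by
      intro u hu1 hu2
      obtain ⟨a1, a2, a3⟩ := cl_spec' hx hN hu1
      obtain ⟨b1, b2, b3⟩ := cl_spec' hy hN hu2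
      refine ⟨a1, b1, ?_, ?_⟩
      · have := hC _ hu1 _ hu2 _ a2 _ b2
        have h5 : C * (|gp x0 x1 N (cl x0 x1 N u.re) - u.re| +
            |gp y1 b N (cl y1 b N u.im) - u.im|) ≤ C * h N :=
          mul_le_mul_of_nonneg_left (by rw [hhN]; linarith) hC0
        have h6 := (abs_le.1 (this.trans h5)).1
        simp only [hg, hvt]
        linarith
      · refine (nrm_le _ _ u.re u.im).trans ?_
        rw [hhN]
        exact add_le_add a3 b3
    set B : ι → Set (ℕ × ℕ) := fun k =>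
      {p | ‖(⟨gp x0 x1 N p.1, gp y1 b N p.2⟩ : ℂ) - c k‖ < ρ k} with hB
    have hBdis : ∀ k ∈ s, ∀ l ∈ s, k ≠ l → Disjoint (B k) (B l) := by
      intro k hk l hl hkl
      rw [Set.disjoint_left]
      intro p hp hp'
      have h1 : ‖(⟨gp x0 x1 N p.1, gp y1 b N p.2⟩ : ℂ) - c k‖ < ρ k := hp
      have h2 : ‖(⟨gp x0 x1 N p.1, gp y1 b N p.2⟩ : ℂ) - c l‖ < ρ l := hp'
      have h3 := hdisj k hk l hl hkl
      have h4 : ‖c k - c l‖ ≤ ‖(⟨gp x0 x1 N p.1, gp y1 b N p.2⟩ : ℂ) - c l‖ +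
          ‖(⟨gp x0 x1 N p.1, gp y1 b N p.2⟩ : ℂ) - c k‖ := by
        have := norm_sub_le ((⟨gp x0 x1 N p.1, gp y1 b N p.2⟩ : ℂ) - c l)
          ((⟨gp x0 x1 N p.1, gp y1 b N p.2⟩ : ℂ) - c k)
        have e : ((⟨gp x0 x1 N p.1, gp y1 b N p.2⟩ : ℂ) - c l) -
          ((⟨gp x0 x1 N p.1, gp y1 b N p.2⟩ : ℂ) - c k) = c k - c l := by ring
        rwa [e] at this
      linarith
    -- crossing edges
    have hcross : ∀ k ∈ s, ∀ x ∈ Icc x0 x1, ∀ y ∈ Icc y1 b, ∀ x' ∈ Icc x0 x1, ∀ y' ∈ Icc y1 b,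
        |x - x'| + |y - y'| ≤ h N → ‖(⟨x, y⟩ : ℂ) - c k‖ < ρ k →
        ¬ ‖(⟨x', y'⟩ : ℂ) - c k‖ < ρ k → f x y ≤ f (c k).re (c k).im - γ k := by
      intro k hk x hx' y hy' x' hx'' y' hy'' hd hin hout
      have h1 := hgain k hk x hx' y hy' (by
        have h2 : ‖(⟨x', y'⟩ : ℂ) - c k‖ ≤ ‖(⟨x', y'⟩ : ℂ) - ⟨x, y⟩‖ + ‖(⟨x, y⟩ : ℂ) - c k‖ := by
          have := norm_add_le ((⟨x', y'⟩ : ℂ) - ⟨x, y⟩) ((⟨x, y⟩ : ℂ) - c k)
          rwa [sub_add_sub_cancel] at this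
        have h3 := nrm_le x' y' x y
        rw [abs_sub_comm x' x, abs_sub_comm y' y] at h3
        have h4 := n2 k hk
        have h5 := hρ k hk
        push Not at hout
        linarith) hin.le
      linarith
    have step := Pool.Agent.H25.EC.disc_star N N g
      (fun i j hi hj => (hpos _ (gm i j hi hj).1 _ (gm i j hi hj).2).le) hmin s B hBdis
      (vt z) (vts z hzre hzim).1 (vts z hzre hzim).2.1
      (by
        intro k hk hmem
        have h1 : ‖(⟨gp x0 x1 N (vt z).1, gp y1 b N (vt z).2⟩ : ℂ) - c k‖ < ρ k := hmem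
        have h2 := (vts z hzre hzim).2.2.2
        have h3 := n3 k hk
        have h4 : ‖z - c k‖ ≤ ‖(⟨gp x0 x1 N (vt z).1, gp y1 b N (vt z).2⟩ : ℂ) - c k‖ +
            ‖(⟨gp x0 x1 N (vt z).1, gp y1 b N (vt z).2⟩ : ℂ) - z‖ := by
          have := norm_sub_le ((⟨gp x0 x1 N (vt z).1, gp y1 b N (vt z).2⟩ : ℂ) - c k)
            ((⟨gp x0 x1 N (vt z).1, gp y1 b N (vt z).2⟩ : ℂ) - z)
          have e : ((⟨gp x0 x1 N (vt z).1, gp y1 b N (vt z).2⟩ : ℂ) - c k) -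
            ((⟨gp x0 x1 N (vt z).1, gp y1 b N (vt z).2⟩ : ℂ) - z) = z - c k := by ring
          rwa [e] at this
        linarith)
      (fun k => vt (c k))
      (by
        intro k hk
        show ‖(⟨gp x0 x1 N (vt (c k)).1, gp y1 b N (vt (c k)).2⟩ : ℂ) - c k‖ < ρ k
        have h1 := (vts (c k) (hcre k hk) (hcim k hk)).2.2.2
        have h2 := n2 k hk
        have h3 := hρ k hk
        linarith)
      (fun k hk => (vts (c k) (hcre k hk) (hcim k hk)).1)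
      (fun k hk => (vts (c k) (hcre k hk) (hcim k hk)).2.1)
      (fun k => f (c k).re (c k).im - γ k) (fun k => f (c k).re (c k).im - C * h N)
      (fun k hk => by have := hγf k hk; linarith)
      (fun k hk => (vts (c k) (hcre k hk) (hcim k hk)).2.2.1)
      (by
        intro k hk i j hi hj hiff
        have m0 := gm i j (by omega) hj
        have m1 := gm (i + 1) j (by omega) hj
        have hd : |gp x0 x1 N i - gp x0 x1 N (i + 1)| + |gp y1 b N j - gp y1 b N j| ≤ h N := by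
          rw [Pool.Agent.H25.EC.gp_succ, sub_self, abs_zero, add_zero, hhN]
          have : gp x0 x1 N i - (gp x0 x1 N i + (x1 - x0) / N) = -((x1 - x0) / N) := by ring
          rw [this, abs_neg, abs_of_pos px]
          linarith
        by_cases hin : (i, j) ∈ B k
        · have hout := hiff.1 hin
          exact (min_le_left _ _).trans
            (hcross k hk _ m0.1 _ m0.2 _ m1.1 _ m1.2 hd hin hout)
        · have hout : (i + 1, j) ∈ B k := by
            by_contra hcon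
            exact hin (hiff.2 hcon)
          refine (min_le_right _ _).trans
            (hcross k hk _ m1.1 _ m1.2 _ m0.1 _ m0.2 ?_ hout hin)
          rw [abs_sub_comm]
          exact hd)
      (by
        intro k hk i j hi hj hiff
        have m0 := gm i j hi (by omega)
        have m1 := gm i (j + 1) hi (by omega)
        have hd : |gp x0 x1 N i - gp x0 x1 N i| + |gp y1 b N j - gp y1 b N (j + 1)| ≤ h N := by
          rw [Pool.Agent.H25.EC.gp_succ, sub_self, abs_zero, zero_add, hhN]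
          have : gp y1 b N j - (gp y1 b N j + (b - y1) / N) = -((b - y1) / N) := by ring
          rw [this, abs_neg, abs_of_pos py]
          linarith
        by_cases hin : (i, j) ∈ B k
        · have hout := hiff.1 hin
          exact (min_le_left _ _).trans
            (hcross k hk _ m0.1 _ m0.2 _ m1.1 _ m1.2 hd hin hout)
        · have hout : (i, j + 1) ∈ B k := by
            by_contra hcon
            exact hin (hiff.2 hcon)
          refine (min_le_right _ _).trans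
            (hcross k hk _ m1.1 _ m1.2 _ m0.1 _ m0.2 ?_ hout hin)
          rw [abs_sub_comm (gp y1 b N (j + 1))]
          exact hd)
    have hlast : gp x0 x1 N N = x1 := Pool.Agent.H25.EC.gp_last x0 x1 N hN
    have hlasty : gp y1 b N N = b := Pool.Agent.H25.EC.gp_last y1 b N hN
    have side1 : ∑ j ∈ Finset.range N, max 0 (g N j - g N (j + 1)) ≤
        ∫ y in y1..b, max 0 (-fy x1 y) := by
      have := side_sum hy (fun y => f x1 y) (fun y => fy x1 y)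
        (fun y hy' => hfy x1 ⟨hx.le, le_refl _⟩ y hy')
        (cfy.comp (f := fun y : ℝ => (x1, y)) (by fun_prop)
          (fun y hy' => ⟨⟨hx.le, le_refl _⟩, hy'⟩)) N hN
      refine le_trans (le_of_eq ?_) this
      refine Finset.sum_congr rfl fun j _ => ?_
      simp only [hg, hlast]
      rfl
    have side2 : ∑ i ∈ Finset.range N, max 0 (g i N - g (i + 1) N) ≤
        ∫ x in x0..x1, max 0 (-fx x b) := by
      have := side_sum hx (fun x => f x b) (fun x => fx x b)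
        (fun x hx' => hfx x hx' b ⟨hy.le, le_refl _⟩)
        (cfx.comp (f := fun x : ℝ => (x, b)) (by fun_prop)
          (fun x hx' => ⟨hx', ⟨hy.le, le_refl _⟩⟩)) N hN
      refine le_trans (le_of_eq ?_) this
      refine Finset.sum_congr rfl fun j _ => ?_
      simp only [hg, hlasty]
      rfl
    have hv0 := (vts z hzre hzim).2.2.1
    have hgNN : g N N = f x1 b := by
      simp only [hg, hlast, hlasty]
    have hJ : ∑ i ∈ Finset.range N, ∑ j ∈ Finset.range N,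
        J (g i j) (g (i + 1) j) (g i (j + 1)) (g (i + 1) (j + 1)) =
        ∑ i ∈ Finset.range N, ∑ j ∈ Finset.range N, Jcell f x0 x1 y1 b N i j := rfl
    have hsum : ∑ k ∈ s, (f (c k).re (c k).im - C * h N - (f (c k).re (c k).im - γ k)) =
        ∑ k ∈ s, (γ k - C * h N) := Finset.sum_congr rfl fun k _ => by ring
    simp only [hsum] at step
    rw [hJ, hgNN] at step
    linarith
  have hL : Tendsto (fun N => (f z.re z.im - C * h N) + ∑ k ∈ s, (γ k - C * h N)) atTop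
      (𝓝 ((f z.re z.im - C * 0) + ∑ k ∈ s, (γ k - C * 0))) :=
    (tendsto_const_nhds.sub (hlim.const_mul C)).add
      (tendsto_finsetSum _ fun k _ => tendsto_const_nhds.sub (hlim.const_mul C))
  have hR : Tendsto (fun N => (∑ i ∈ Finset.range N, ∑ j ∈ Finset.range N,
      Jcell f x0 x1 y1 b N i j) +
      (∫ y in y1..b, max 0 (-fy x1 y)) + (∫ x in x0..x1, max 0 (-fx x b)) + f x1 b) atTop
      (𝓝 (I + (∫ y in y1..b, max 0 (-fy x1 y)) + (∫ x in x0..x1, max 0 (-fx x b)) + f x1 b)) :=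
    ((hT.add_const _).add_const _).add_const _
  have := le_of_tendsto_of_tendsto hL hR hmain
  simpa using this

end Pool.Agent.H90.EC
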