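import Pool.Agent.H13.EC.T4
import Pool.Agent.H13.EC.K1
import Pool.Agent.H13.EC.K5

/-!
# EC-K6b: the inequality for every fixed `w`
-/

set_option autoImplicit false

open Set Metric MeasureTheory

namespace Pool.Agent.H90.EC

open H62.CJ H13.EC

/-- the right hand side of STAR for the kernel -/
noncomputable def RHS (F : ℂ → ℂ) (q κ δ x0 y1 b : ℝ) (w : ℂ) : ℝ :=
  (∫ p in RC x0 y1 b, jj F q κ δ w (pt p.1 p.2)) +
  (∫ y in y1..b, max 0 (-uy F q κ δ w (pt (x0 + 2 * Real.pi) y))) +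
  (∫ x in x0..(x0 + 2 * Real.pi), max 0 (-ux F q κ δ w (pt x b))) +
  uu F q κ δ w (pt (x0 + 2 * Real.pi) b)

theorem uu_at (F : ℂ → ℂ) (q κ δ : ℝ) (hδ : 0 < δ) (z : ℂ) :
    uu F q κ δ (F z) z = z.im ^ κ * δ ^ (-q) := by
  unfold uu EE
  rw [sub_self, norm_zero, zero_pow two_ne_zero, zero_add, ← Real.rpow_natCast δ 2,
    ← Real.rpow_mul hδ.le]
  congr 2
  push_cast
  ring

theorem pointwise_w (F : ℂ → ℂ) (M : ℝ) (hF : Cls F M) (q κ δ : ℝ) (hq : 0 < q) (hκ : 0 < κ)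
    (hδ : 0 < δ) (x0 y1 b : ℝ) (hy1 : 0 < y1) (hb : y1 < b) (hb1 : b ≤ 1 / 4)
    {ι : Type} (s : Finset ι) (c : ι → ℂ) (ρ : ι → ℝ) (ω : ι → ℂ) (σ γ : ι → ℝ) (δ0 : ℝ)
    (hfam : IsFam F q κ x0 y1 b s c ρ ω σ γ δ0) (hδ0 : δ ≤ δ0) (w : ℂ) :
    (F '' HO x0 y1 b).indicator (fun w => hgt F (HO x0 y1 b) w ^ κ * δ ^ (-q)) w +
      ∑ k ∈ s, (ball (ω k) (σ k)).indicator (fun _ => γ k) w ≤ RHS F q κ δ x0 y1 b w := by
  classical
  have hpi := Real.pi_gt_three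
  have hx : x0 < x0 + 2 * Real.pi := by linarith
  have py : ∀ y ∈ Icc y1 b, 0 < y := fun y hy => lt_of_lt_of_le hy1 hy.1
  set s' := s.filter fun k => w ∈ ball (ω k) (σ k) with hs'
  have hsum : ∑ k ∈ s, (ball (ω k) (σ k)).indicator (fun _ => γ k) w = ∑ k ∈ s', γ k := by
    rw [hs', Finset.sum_filter]
    refine Finset.sum_congr rfl fun k _ => ?_
    rw [Set.indicator_apply]
  have hmem : ∀ k ∈ s', k ∈ s ∧ w ∈ ball (ω k) (σ k) := fun k hk => Finset.mem_filter.1 hk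
  have cpt : Continuous fun p : ℝ × ℝ => ((w, pt p.1 p.2) : ℂ × ℂ) := by
    have : Continuous fun p : ℝ × ℝ => pt p.1 p.2 := by
      simp only [pt_eq]
      fun_prop
    exact continuous_const.prodMk this
  have mpt : MapsTo (fun p : ℝ × ℝ => ((w, pt p.1 p.2) : ℂ × ℂ))
      (Icc x0 (x0 + 2 * Real.pi) ×ˢ Icc y1 b) (univ ×ˢ HP) := by
    intro p hp
    exact ⟨mem_univ _, py _ hp.2⟩
  have k1 : ContinuousOn (fun p : ℝ × ℝ => ux F q κ δ w (pt p.1 p.2))
      (Icc x0 (x0 + 2 * Real.pi) ×ˢ Icc y1 b) :=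
    (cont_ux F M hF q κ δ hδ).comp (f := fun p : ℝ × ℝ => ((w, pt p.1 p.2) : ℂ × ℂ))
      cpt.continuousOn mpt
  have k2 : ContinuousOn (fun p : ℝ × ℝ => uy F q κ δ w (pt p.1 p.2))
      (Icc x0 (x0 + 2 * Real.pi) ×ˢ Icc y1 b) :=
    (cont_uy F M hF q κ δ hδ).comp (f := fun p : ℝ × ℝ => ((w, pt p.1 p.2) : ℂ × ℂ))
      cpt.continuousOn mpt
  have k3 : ContinuousOn (fun p : ℝ × ℝ => uxy F q κ δ w (pt p.1 p.2))
      (Icc x0 (x0 + 2 * Real.pi) ×ˢ Icc y1 b) :=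
    (cont_uxy F M hF q κ δ hδ).comp (f := fun p : ℝ × ℝ => ((w, pt p.1 p.2) : ℂ × ℂ))
      cpt.continuousOn mpt
  have k4 : ContinuousOn (fun p : ℝ × ℝ => lxx F q δ w (pt p.1 p.2))
      (Icc x0 (x0 + 2 * Real.pi) ×ˢ Icc y1 b) :=
    (cont_lxx F M hF q δ hδ).comp (f := fun p : ℝ × ℝ => ((w, pt p.1 p.2) : ℂ × ℂ))
      cpt.continuousOn mpt
  have k5 : ContinuousOn (fun p : ℝ × ℝ => lyy F q κ δ w (pt p.1 p.2))
      (Icc x0 (x0 + 2 * Real.pi) ×ˢ Icc y1 b) :=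
    (cont_lyy F M hF q κ δ hδ).comp (f := fun p : ℝ × ℝ => ((w, pt p.1 p.2) : ℂ × ℂ))
      cpt.continuousOn mpt
  have gle : ∀ k ∈ s', γ k ≤ uu F q κ δ w (c k) := by
    intro k hk
    have hk' := hmem k hk
    have him : 0 < (c k).im := lt_of_lt_of_le hy1 (hfam.im_mem k hk'.1).1
    have hρ := hfam.ρ_pos k hk'.1
    have hn : ‖(c k + ((ρ k : ℝ) : ℂ)) - c k‖ = ρ k := by
      rw [add_sub_cancel_left, Complex.norm_real, Real.norm_eq_abs, abs_of_pos hρ]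
    have h1 := hfam.gain k hk'.1 w hk'.2 δ hδ hδ0 (c k + ((ρ k : ℝ) : ℂ))
      (by rw [hn]; linarith) (by rw [hn])
    have h2 := uu_pos F q κ δ hδ w (c k + ((ρ k : ℝ) : ℂ)) (by simpa using him)
    linarith
  have hgain : ∀ k ∈ s', ∀ x ∈ Icc x0 (x0 + 2 * Real.pi), ∀ y ∈ Icc y1 b,
      ρ k / 2 ≤ ‖pt x y - c k‖ → ‖pt x y - c k‖ ≤ ρ k →
      uu F q κ δ w (pt x y) + γ k ≤ uu F q κ δ w (pt (c k).re (c k).im) := by
    intro k hk x _ y _ h1 h2
    rw [pt_re_im]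
    exact hfam.gain k (hmem k hk).1 w (hmem k hk).2 δ hδ hδ0 _ h1 h2
  have hρx : ∀ k ∈ s', 2 * ρ k < x0 + 2 * Real.pi - x0 := by
    intro k hk
    have h1 := hfam.ρ_le k (hmem k hk).1
    have h2 := (hfam.im_mem k (hmem k hk).1).2
    linarith
  rw [hsum]
  by_cases hw : w ∈ F '' HO x0 y1 b
  · rw [Set.indicator_of_mem hw]
    set z := Function.invFunOn F (HO x0 y1 b) w with hz
    have hzH : z ∈ HO x0 y1 b := Function.invFunOn_mem hw
    have hFz : F z = w := Function.invFunOn_eq hw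
    have hzr : z.re ∈ Icc x0 (x0 + 2 * Real.pi) := ⟨hzH.1.1, hzH.1.2.le⟩
    have key := star_plus_yx x0 (x0 + 2 * Real.pi) y1 b hx hb
      (fun x y => uu F q κ δ w (pt x y)) (fun x y => ux F q κ δ w (pt x y))
      (fun x y => uy F q κ δ w (pt x y)) (fun x y => uxy F q κ δ w (pt x y))
      (fun x y => lx F q δ w (pt x y)) (fun x y => ly F q κ δ w (pt x y))
      (fun x y => lxx F q δ w (pt x y)) (fun x y => lyy F q κ δ w (pt x y))
      (fun x _ y hy => uu_pos F q κ δ hδ w _ (py y hy))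
      (fun x _ y hy => uu_x F M hF q κ δ hδ w x y (py y hy))
      (fun x _ y hy => uu_y F M hF q κ δ hδ w x y (py y hy))
      (fun x _ y hy => ux_y F M hF q κ δ hδ w x y (py y hy))
      (fun x _ y hy => log_x F M hF q κ δ hδ w x y (py y hy))
      (fun x _ y hy => log_y F M hF q κ δ hδ w x y (py y hy))
      (fun x _ y hy => log_xx F M hF q δ hδ w x y (py y hy))
      (fun x _ y hy => log_yy F M hF q κ δ hδ w x y (py y hy))
      k1 k2 k3 k4 k5
      (fun x _ y hy => lap_neg F q κ δ hq hκ hδ w _ (py y hy))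
      (fun x _ y hy => uy_x F M hF q κ δ hδ w x y (py y hy))
      s' c ρ γ (fun k hk => hfam.re_mem k (hmem k hk).1) (fun k hk => hfam.im_mem k (hmem k hk).1)
      (fun k hk => hfam.ρ_pos k (hmem k hk).1) (fun k hk => hfam.γ_nonneg k (hmem k hk).1)
      gle (fun k hk l hl hkl => hfam.disj k (hmem k hk).1 l (hmem l hl).1 hkl) hgain
      z hzr hzH.2 (fun k hk => by
        by_contra hcon
        push Not at hcon
        exact hfam.ne k (hmem k hk).1 w (hmem k hk).2 z hcon hFz)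
    have e1 : uu F q κ δ w (pt z.re z.im) = hgt F (HO x0 y1 b) w ^ κ * δ ^ (-q) := by
      rw [pt_re_im]
      have := uu_at F q κ δ hδ z
      rw [hFz] at this
      exact this
    rw [e1] at key
    exact key
  · rw [Set.indicator_of_notMem hw, zero_add]
    exact star_plus0_yx x0 (x0 + 2 * Real.pi) y1 b hx hb
      (fun x y => uu F q κ δ w (pt x y)) (fun x y => ux F q κ δ w (pt x y))
      (fun x y => uy F q κ δ w (pt x y)) (fun x y => uxy F q κ δ w (pt x y))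
      (fun x y => lx F q δ w (pt x y)) (fun x y => ly F q κ δ w (pt x y))
      (fun x y => lxx F q δ w (pt x y)) (fun x y => lyy F q κ δ w (pt x y))
      (fun x _ y hy => uu_pos F q κ δ hδ w _ (py y hy))
      (fun x _ y hy => uu_x F M hF q κ δ hδ w x y (py y hy))
      (fun x _ y hy => uu_y F M hF q κ δ hδ w x y (py y hy))
      (fun x _ y hy => ux_y F M hF q κ δ hδ w x y (py y hy))
      (fun x _ y hy => log_x F M hF q κ δ hδ w x y (py y hy))
      (fun x _ y hy => log_y F M hF q κ δ hδ w x y (py y hy))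
      (fun x _ y hy => log_xx F M hF q δ hδ w x y (py y hy))
      (fun x _ y hy => log_yy F M hF q κ δ hδ w x y (py y hy))
      k1 k2 k3 k4 k5
      (fun x _ y hy => lap_neg F q κ δ hq hκ hδ w _ (py y hy))
      (fun x _ y hy => uy_x F M hF q κ δ hδ w x y (py y hy))
      s' c ρ γ (fun k hk => hfam.re_mem k (hmem k hk).1) (fun k hk => hfam.im_mem k (hmem k hk).1)
      (fun k hk => hfam.ρ_pos k (hmem k hk).1) (fun k hk => hfam.γ_nonneg k (hmem k hk).1)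
      gle (fun k hk l hl hkl => hfam.disj k (hmem k hk).1 l (hmem l hl).1 hkl) hgain hρx

end Pool.Agent.H90.EC
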